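import Pool.Agent.Q75.BS.Stm
import Pool.Agent.W337.BB.Tau

set_option autoImplicit false

/-!
# Project BS of helper75, job COR: passage around a corner
-/

namespace Pool.Agent.Q277.BS

open Complex Set MeasureTheory Filter Topology Pool.Agent.W780.PG Pool.Agent.W780.BB
open Pool.Agent.TH103.BL Pool.Agent.Q75.BS

open scoped Real ComplexConjugate

variable {n : ℕ} {p : Fin (n + 3) → ℂ}

theorem hExist : S_Exist := Pool.Agent.W345.BB.exist hR Pool.Agent.W337.BB.exit_th hUnif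
theorem hFan : S_Fan := Pool.Agent.W12.BB.Fan.fan hR
theorem hRev : S_Rev := _root_.W973.BB.rev hR
theorem hGen : S_Gen := Pool.Agent.W337.BB.gen_th

theorem sin_countable (a τ : ℝ) : {θ : ℝ | Real.sin (θ - τ) = a}.Countable := by
  by_cases h : ∃ θ₀ : ℝ, Real.sin (θ₀ - τ) = a
  · obtain ⟨θ₀, h₀⟩ := h
    refine ((countable_range fun k : ℤ => 2 * (k : ℝ) * π + (θ₀ - τ) + τ).union
      (countable_range fun k : ℤ => (2 * (k : ℝ) + 1) * π - (θ₀ - τ) + τ)).mono ?_
    intro θ hθ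
    have h1 : Real.sin (θ₀ - τ) = Real.sin (θ - τ) := by rw [h₀]; exact hθ.symm
    obtain ⟨k, hk | hk⟩ := Real.sin_eq_sin_iff.1 h1
    · left
      exact ⟨k, by simp only; linarith⟩
    · right
      exact ⟨k, by simp only; linarith⟩
  · have : {θ : ℝ | Real.sin (θ - τ) = a} = ∅ := by
      ext θ
      simp only [mem_ofPred_eq, mem_empty_iff_false, iff_false]
      exact fun hθ => h ⟨θ, hθ⟩
    rw [this]
    exact countable_empty

theorem ae_a (hp : IsConvexPolygon p) : ∀ᵐ φ : ℝ, ∀ (w : List (Fin (n + 3))) (m : ℕ)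
    (i j : Fin (n + 3)), sf p j (fp p w (p i + (1 / ((m : ℝ) + 1)) • dir φ)) ≠ 0 := by
  rw [ae_all_iff]
  intro w
  rw [ae_all_iff]
  intro m
  rw [ae_all_iff]
  intro i
  rw [ae_all_iff]
  intro j
  have hs : (0 : ℝ) < 1 / ((m : ℝ) + 1) := by positivity
  obtain ⟨e, c, he, h⟩ := (hR n p hp).2.2.2.2.2.2.2.2.2.2.1 w
  have he0 : e ≠ 0 := by
    rw [he]
    exact pow_ne_zero _ (by norm_num)
  have hne : (‖p (j + 1) - p j‖ : ℝ) ≠ 0 := by
    rw [norm_ne_zero_iff, sub_ne_zero]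
    intro h
    exact Pool.Agent.W174.PG.i1 j (Pool.Agent.W174.PG.inj hp h)
  have hcount : {φ : ℝ | ¬ sf p j (fp p w (p i + (1 / ((m : ℝ) + 1)) • dir φ)) ≠ 0}.Countable := by
    refine ((sin_countable (-(sf p j (fp p w (p i))) /
      (1 / ((m : ℝ) + 1) * ‖p (j + 1) - p j‖)) (tau p j)).preimage_of_injOn
      (f := fun φ : ℝ => e * φ + c) ?_).mono ?_
    · intro x _ y _ hxy
      have : e * x + c = e * y + c := hxy
      exact mul_left_cancel₀ he0 (by linarith)
    · intro φ hφ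
      rw [mem_ofPred_eq, not_not, (h (p i) φ).2, sf_ray, sl_eq hp] at hφ
      rw [mem_preimage, mem_ofPred_eq, eq_div_iff (mul_ne_zero hs.ne' hne)]
      linarith
  exact hcount.measure_zero _

/-- the points on one side of the line through the vertex, near the vertex -/
theorem conv_S (i : Fin (n + 3)) (σ φ r : ℝ) :
    Convex ℝ {z : ℂ | 0 < σ * sd p i (z, φ) ∧ ‖z - p i‖ < r} := by
  have h1 : Convex ℝ {z : ℂ | 0 < σ * sd p i (z, φ)} := by
    intro x hx y hy a b ha hb hab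
    have e : a • x + b • y = x + b • (y - x) := by
      have : a = 1 - b := by linarith
      rw [this]
      simp only [sub_smul, one_smul, smul_sub]
      ring
    have hx' : 0 < σ * sd p i (x, φ) := hx
    have hy' : 0 < σ * sd p i (y, φ) := hy
    show 0 < σ * sd p i (a • x + b • y, φ)
    rw [e, sd_line]
    have e2 : σ * ((1 - b) * sd p i (x, φ) + b * sd p i (y, φ)) =
        a * (σ * sd p i (x, φ)) + b * (σ * sd p i (y, φ)) := by
      have : a = 1 - b := by linarith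
      rw [this]
      ring
    rw [e2]
    rcases ha.eq_or_lt with h | h
    · have hb1 : b = 1 := by linarith
      rw [← h, hb1]
      linarith
    · have := mul_pos h hx'
      have := mul_nonneg hb hy'.le
      linarith
  have h2 : Convex ℝ (Metric.ball (p i) r) := convex_ball _ _
  have e : {z : ℂ | 0 < σ * sd p i (z, φ) ∧ ‖z - p i‖ < r} =
      {z : ℂ | 0 < σ * sd p i (z, φ)} ∩ Metric.ball (p i) r := by
    ext z
    simp only [mem_ofPred_eq, mem_inter_iff, Metric.mem_ball, dist_eq_norm]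
  rw [e]
  exact h1.inter h2

theorem uf_line (hp : IsConvexPolygon p) (w : List (Fin (n + 3))) (x y : ℂ) (s : ℝ) :
    uf p w (x + s • (y - x)) = uf p w x + s • (uf p w y - uf p w x) := by
  have h := (hR n p hp).2.2.2.2.2.2.2.2.2.1 w (uf p w x) (uf p w y) s
  have hfu := fun z => ((hR n p hp).2.2.2.2.2.2.1 w z).1
  have huf := fun z => ((hR n p hp).2.2.2.2.2.2.1 w z).2
  rw [hfu, hfu] at h
  rw [← h, huf]

theorem uf_append (w w' : List (Fin (n + 3))) (z : ℂ) :
    uf p w (uf p w' z) = uf p (w ++ w') z := by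
  induction w with
  | nil => rfl
  | cons i w ih =>
    show rf p i (uf p w (uf p w' z)) = rf p i (uf p (w ++ w') z)
    rw [ih]

theorem t_COR : S_COR := by
  intro n p hp
  obtain ⟨K, hK⟩ := hExist n p hp 1
  have hgen : ∀ᵐ φ : ℝ, ∀ m : ℕ, ∀ᵐ z : ℂ,
      (∀ w j, uf p w (p j) ∉ segment ℝ z (z + (1 / ((m : ℝ) + 1)) • dir φ)) ∧
      (∀ w i, sf p i (fp p w (z + (1 / ((m : ℝ) + 1)) • dir φ)) ≠ 0) := by
    rw [ae_all_iff]
    intro m
    exact ae_swap (hGen n p hp (1 / ((m : ℝ) + 1)))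
  filter_upwards [ae_a hp, hgen] with φ ha hb
  rintro i σ - ⟨z₀, hz₀, hs₀⟩
  have hopen := reg_open hp
  have hfin := (hR n p hp).2.2.2.2.2.2.2.2.2.2.2 (2 * K)
  -- the only unfolded vertex near the vertex
  obtain ⟨r, hr, hr'⟩ : ∃ r : ℝ, 0 < r ∧ ∀ a ∈ VK p (2 * K), ‖a - p i‖ < r → a = p i := by
    have h1 : IsOpen ((VK p (2 * K) \ {p i})ᶜ) := (hfin.subset sdiff_subset).isClosed.isOpen_compl
    obtain ⟨r, hr, h2⟩ := Metric.isOpen_iff.1 h1 (p i) (fun h => h.2 rfl)
    refine ⟨r, hr, fun a ha1 ha2 => ?_⟩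
    by_contra hne
    exact h2 (show a ∈ Metric.ball (p i) r by rw [Metric.mem_ball, dist_eq_norm]; exact ha2)
      ⟨ha1, hne⟩
  obtain ⟨m, hm⟩ := exists_nat_one_div_lt (show (0 : ℝ) < r / 3 by linarith)
  set δ : ℝ := 1 / ((m : ℝ) + 1) with hδ
  have hδ0 : 0 < δ := by positivity
  have hδ1 : δ ≤ 1 := by
    rw [hδ, div_le_one (by positivity)]
    have : (0 : ℝ) ≤ m := m.cast_nonneg
    linarith
  set A₀ : ℂ := p i + δ • dir φ with hA₀
  -- the distance from the sides
  obtain ⟨κ, hκ, hκ'⟩ : ∃ κ : ℝ, 0 < κ ∧ ∀ w : List (Fin (n + 3)), w.length ≤ K →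
      ∀ j, κ ≤ |sf p j (fp p w A₀)| := by
    have h1 : ∀ᶠ κ in 𝓝[>] (0 : ℝ), ∀ w ∈ {w : List (Fin (n + 3)) | w.length ≤ K},
        ∀ j, κ ≤ |sf p j (fp p w A₀)| := by
      rw [eventually_all_finite (List.finite_length_le _ _)]
      intro w _
      rw [eventually_all]
      intro j
      filter_upwards [Ioo_mem_nhdsGT (abs_pos.2 (ha w m i j))] with d hd using hd.2.le
    obtain ⟨κ, h2, h3⟩ := (h1.and self_mem_nhdsWithin).exists
    exact ⟨κ, h3, h2⟩
  set D : ℝ := ∑ j, ‖p (j + 1) - p j‖ with hD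
  have hD0 : 0 ≤ D := Finset.sum_nonneg fun _ _ => norm_nonneg _
  have hDj : ∀ j, ‖p (j + 1) - p j‖ ≤ D := fun j =>
    Finset.single_le_sum (f := fun j => ‖p (j + 1) - p j‖) (fun _ _ => norm_nonneg _)
      (Finset.mem_univ j)
  obtain ⟨ρ, hρ0, hρδ, hρκ⟩ : ∃ ρ : ℝ, 0 < ρ ∧ ρ < δ / 2 ∧ D * ρ < κ := by
    refine ⟨min (δ / 4) (κ / (2 * (D + 1))), lt_min (by linarith) (by positivity),
      (min_le_left _ _).trans_lt (by linarith), ?_⟩
    calc D * min (δ / 4) (κ / (2 * (D + 1))) ≤ D * (κ / (2 * (D + 1))) :=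
          mul_le_mul_of_nonneg_left (min_le_right _ _) hD0
      _ ≤ (D + 1) * (κ / (2 * (D + 1))) := by
          refine mul_le_mul_of_nonneg_right (by linarith) (by positivity)
      _ = κ / 2 := by field_simp
      _ < κ := by linarith
  have hcz : Continuous fun z' : ℂ => σ * sd p i (z', φ) :=
    continuous_const.mul ((sd_cont p i).comp (continuous_id.prodMk continuous_const))
  -- a generic point
  obtain ⟨z₁, hz₁r, hz₁n, hz₁s, hg1, hg2⟩ : ∃ z₁ : ℂ, z₁ ∈ reg p ∧ ‖z₁ - p i‖ < ρ ∧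
      0 < σ * sd p i (z₁, φ) ∧ (∀ w j, uf p w (p j) ∉ segment ℝ z₁ (z₁ + δ • dir φ)) ∧
      (∀ w i, sf p i (fp p w (z₁ + δ • dir φ)) ≠ 0) := by
    obtain ⟨l, ⟨hl1, hl3⟩, hl0⟩ : ∃ l : ℝ, (l * ‖z₀ - p i‖ < ρ ∧ l ≤ 1) ∧ 0 < l := by
      have e1 : ∀ᶠ l in 𝓝[>] (0 : ℝ), l * ‖z₀ - p i‖ < ρ := by
        have : Tendsto (fun l : ℝ => l * ‖z₀ - p i‖) (𝓝[>] 0) (𝓝 (0 * ‖z₀ - p i‖)) :=
          ((continuous_id.mul continuous_const).tendsto 0).mono_left nhdsWithin_le_nhds
        rw [zero_mul] at this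
        exact this.eventually_lt_const hρ0
      have e3 : ∀ᶠ l in 𝓝[>] (0 : ℝ), l ≤ 1 := by
        filter_upwards [Ioo_mem_nhdsGT (one_pos (α := ℝ))] with l hl using hl.2.le
      exact ((e1.and e3).and self_mem_nhdsWithin).exists
    set y : ℂ := p i + l • (z₀ - p i) with hy
    have hyr : y ∈ reg p := scale_in hp i hz₀ hl0 hl3
    have hys : 0 < σ * sd p i (y, φ) := by
      rw [hy, sd_line, sd_vertex, mul_zero, zero_add]
      have := mul_pos hl0 hs₀
      linarith
    have hyn : y ∈ Metric.ball (p i) ρ := by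
      rw [Metric.mem_ball, dist_eq_norm, hy, add_sub_cancel_left, norm_smul, Real.norm_eq_abs,
        abs_of_pos hl0]
      exact hl1
    have n1 : ∀ᶠ z' in 𝓝 y, 0 < σ * sd p i (z', φ) :=
      (hcz.tendsto y).eventually_const_lt hys
    have n2 : ∀ᶠ z' in 𝓝 y, z' ∈ reg p ∩ Metric.ball (p i) ρ :=
      (hopen.inter Metric.isOpen_ball).mem_nhds ⟨hyr, hyn⟩
    obtain ⟨z', ⟨a1, a2⟩, a3, a4, a5⟩ :=
      (Measure.dense_of_ae (hb m)).inter_nhds_nonempty (n1.and n2)
    rw [Metric.mem_ball, dist_eq_norm] at a5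
    exact ⟨z', a4, a5, a3, a1, a2⟩
  set A₁ : ℂ := z₁ + δ • dir φ with hA₁
  have hnd : ‖(δ : ℝ) • dir φ‖ = δ := by
    rw [norm_smul, norm_dir, mul_one, Real.norm_eq_abs, abs_of_pos hδ0]
  obtain ⟨w, hwK, hCh⟩ := hK z₁ hz₁r A₁ (by
    rw [hA₁, add_sub_cancel_left, hnd]; exact hδ1) hg1 hg2
  have hsf : ∀ j (z : ℂ), ‖z - p i‖ < ρ →
      |sf p j (fp p w (z + δ • dir φ)) - sf p j (fp p w A₀)| < κ := by
    intro j z hz
    refine (sf_lip p j _ _).trans_lt ?_
    rw [(hR n p hp).2.2.2.2.2.2.2.1 w]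
    have e : z + δ • dir φ - A₀ = z - p i := by rw [hA₀]; ring
    rw [e]
    calc ‖p (j + 1) - p j‖ * ‖z - p i‖ ≤ D * ρ :=
          mul_le_mul (hDj j) hz.le (norm_nonneg _) hD0
      _ < κ := hρκ
  have hreg1 : fp p w A₁ ∈ reg p := ch_mem w _ _ hCh
  have hA₀κ : ∀ j, κ ≤ sf p j (fp p w A₀) := by
    intro j
    have h1 : 0 < sf p j (fp p w A₁) := hreg1 j
    have h2 := abs_lt.1 (hsf j z₁ hz₁n)
    have h3 := hκ' w hwK j
    rcases le_abs.1 h3 with h4 | h4
    · exact h4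
    · exfalso
      have h5 : sf p j (fp p w (z₁ + δ • dir φ)) = sf p j (fp p w A₁) := by rw [hA₁]
      rw [h5] at h2
      linarith [h2.2]
  refine ⟨w, δ, ρ, hδ0, hρ0, fun j => hκ.trans_le (hA₀κ j), Eventually.of_forall fun z hz hzn hzs => ?_⟩
  set A₂ : ℂ := z + δ • dir φ with hA₂
  have hreg2 : fp p w A₂ ∈ reg p := by
    intro j
    have h2 := abs_lt.1 (hsf j z hzn)
    have h3 := hA₀κ j
    show 0 < sf p j (fp p w A₂)
    linarith [h2.1]
  -- the convex set of points on the side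
  set S : Set ℂ := {z : ℂ | 0 < σ * sd p i (z, φ) ∧ ‖z - p i‖ < 2 * δ} with hS
  have hSc : Convex ℝ S := conv_S i σ φ (2 * δ)
  have hSV : ∀ a ∈ VK p (2 * K), a ∉ S := by
    intro a ha1 ha2
    have h1 : a = p i := hr' a ha1 (ha2.2.trans (by linarith))
    have h2 := ha2.1
    rw [h1, sd_vertex, mul_zero] at h2
    exact lt_irrefl _ h2
  have hSz : ∀ z : ℂ, ‖z - p i‖ < ρ → 0 < σ * sd p i (z, φ) → z ∈ S ∧ z + δ • dir φ ∈ S := by
    intro z h1 h2
    refine ⟨⟨h2, by linarith⟩, ?_, ?_⟩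
    · have : sd p i (z + δ • dir φ, φ) = sd p i (z, φ) := by
        unfold sd
        simp only
        have hd : conj (dir φ) * dir φ = 1 := by
          rw [mul_comm, Complex.mul_conj, normSq_eq_norm_sq, norm_dir]
          norm_num
        have e : conj (dir φ) * (z + δ • dir φ - p i) =
            conj (dir φ) * (z - p i) + (δ : ℂ) * (conj (dir φ) * dir φ) := by
          rw [real_smul]; ring
        rw [e, hd, mul_one, add_im, ofReal_im, add_zero]
      show 0 < σ * sd p i (z + δ • dir φ, φ)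
      rw [this]
      exact h2
    · have e : z + δ • dir φ - p i = (z - p i) + δ • dir φ := by ring
      rw [e]
      refine (norm_add_le _ _).trans_lt ?_
      rw [hnd]
      linarith
  obtain ⟨hS1, hSA1⟩ := hSz z₁ hz₁n hz₁s
  obtain ⟨hS2, hSA2⟩ := hSz z hzn hzs
  -- first fan
  have hVmono : ∀ a ∈ VK p K, a ∈ VK p (2 * K) := by
    rintro a ⟨w', hw', j, rfl⟩
    exact ⟨w', by omega, j, rfl⟩
  have c1 : Ch p w z A₁ := by
    refine hFan n p hp K w z₁ z A₁ hwK hz₁r hz hCh fun a ha1 ha2 => ?_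
    refine hSV a (hVmono a ha1) (convexHull_min ?_ hSc ha2)
    intro x hx
    simp only [mem_insert_iff, mem_singleton_iff] at hx
    rcases hx with rfl | rfl | rfl
    · exact hSA1
    · exact hS1
    · exact hS2
  have c2 := hRev n p hp w z A₁ hz c1
  have c3 : Ch p w.reverse (fp p w A₂) (fp p w z) := by
    refine hFan n p hp K w.reverse (fp p w A₁) (fp p w A₂) (fp p w z)
      (by rw [List.length_reverse]; exact hwK) hreg1 hreg2 c2 fun a ha1 ha2 => ?_
    obtain ⟨w', hw', j, rfl⟩ := ha1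
    have h1 : uf p w (uf p w' (p j)) ∈ S := by
      have hconv : Convex ℝ {x : ℂ | uf p w x ∈ S} := by
        intro x hx y hy a b ha0 hb0 hab
        have e : a • x + b • y = x + b • (y - x) := by
          have : a = 1 - b := by linarith
          rw [this]
          simp only [sub_smul, one_smul, smul_sub]
          ring
        show uf p w (a • x + b • y) ∈ S
        rw [e, uf_line hp]
        have e2 : uf p w x + b • (uf p w y - uf p w x) = a • uf p w x + b • uf p w y := by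
          have : a = 1 - b := by linarith
          rw [this]
          simp only [sub_smul, one_smul, smul_sub]
          ring
        rw [e2]
        exact hSc hx hy ha0 hb0 hab
      refine convexHull_min ?_ hconv ha2
      have huf := fun z => ((hR n p hp).2.2.2.2.2.2.1 w z).2
      intro x hx
      simp only [mem_insert_iff, mem_singleton_iff] at hx
      rcases hx with rfl | rfl | rfl
      · show uf p w (fp p w z) ∈ S
        rw [huf]
        exact hS2
      · show uf p w (fp p w A₁) ∈ S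
        rw [huf]
        exact hSA1
      · show uf p w (fp p w A₂) ∈ S
        rw [huf]
        exact hSA2
    rw [uf_append] at h1
    exact hSV _ ⟨w ++ w', by rw [List.length_append]; omega, j, rfl⟩ h1
  have c4 := hRev n p hp w.reverse (fp p w A₂) (fp p w z) hreg2 c3
  rw [List.reverse_reverse, _root_.W973.BB.fp_reverse p (hR n p hp).1,
    _root_.W973.BB.fp_reverse p (hR n p hp).1] at c4
  exact c4

end Pool.Agent.Q277.BS
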