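import Pool.Agent.Q75.BS.Stm

set_option autoImplicit false

/-!
# Project BS of helper75, job VL: limits at the vertices
-/

namespace Pool.Agent.Q277.BS.VLj

open Complex Set MeasureTheory Filter Topology Pool.Agent.W780.PG Pool.Agent.W780.BB
open Pool.Agent.TH103.BL Pool.Agent.Q75.BS

open scoped Real ComplexConjugate

variable {n : ℕ} {p : Fin (n + 3) → ℂ}

theorem mp_fp (p : Fin (n + 3) → ℂ) : ∀ w : List (Fin (n + 3)), MeasurePreserving (fp p w)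
  | [] => MeasurePreserving.id _
  | i :: w => (mp_fp p w).comp (Pool.Agent.W333.BB.mp_rf p i)

theorem qmp (p : Fin (n + 3) → ℂ) (w : List (Fin (n + 3))) (v : ℂ) :
    Measure.QuasiMeasurePreserving (fun z : ℂ => fp p w (z + v)) :=
  ((mp_fp p w).comp (measurePreserving_add_right volume v)).quasiMeasurePreserving

theorem qmp_dir (hp : IsConvexPolygon p) (w : List (Fin (n + 3))) :
    Measure.QuasiMeasurePreserving (fun θ : ℝ => (fd p w (0, θ)).2) := by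
  obtain ⟨e, c, he, h⟩ := (hR n p hp).2.2.2.2.2.2.2.2.2.2.1 w
  have e1 : (fun θ : ℝ => (fd p w (0, θ)).2) = fun θ => e * θ + c := by
    funext θ
    exact (h 0 θ).1
  rw [e1]
  rcases neg_one_pow_eq_or ℝ w.length with h1 | h1
  · have e2 : (fun θ : ℝ => e * θ + c) = fun θ => θ + c := by
      funext θ
      rw [he, h1, one_mul]
    rw [e2]
    exact (measurePreserving_add_right volume c).quasiMeasurePreserving
  · have e2 : (fun θ : ℝ => e * θ + c) = fun θ => c - θ := by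
      funext θ
      rw [he, h1]
      ring
    rw [e2]
    exact (MeasureTheory.Measure.measurePreserving_sub_left volume c).quasiMeasurePreserving

/-- the limit on one side -/
def OLim {n : ℕ} (p : Fin (n + 3) → ℂ) (f : ℂ × ℝ → ℝ) (φ : ℝ) (i : Fin (n + 3)) (σ c : ℝ) : Prop :=
  ∀ η : ℝ, 0 < η → ∃ ρ : ℝ, 0 < ρ ∧ ∀ᵐ z : ℂ, z ∈ reg p → ‖z - p i‖ < ρ →
    0 < σ * sd p i (z, φ) → |f (z, φ) - c| ≤ η

theorem one_side (hp : IsConvexPolygon p) {f : ℂ × ℝ → ℝ} (hI : IsInvariantFun p f) {φ : ℝ}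
    (hdir : ∀ w : List (Fin (n + 3)), ∀ z ∈ reg p, ∃ c, Lim (sli f (fd p w (0, φ)).2) z c)
    (i : Fin (n + 3)) (σ : ℝ)
    (hc : (∃ z ∈ reg p, 0 < σ * sd p i (z, φ)) →
      ∃ (w : List (Fin (n + 3))) (δ ρ : ℝ), 0 < δ ∧ 0 < ρ ∧ fp p w (p i + δ • dir φ) ∈ reg p ∧
        ∀ᵐ z : ℂ, z ∈ reg p → ‖z - p i‖ < ρ → 0 < σ * sd p i (z, φ) →
          Ch p w z (z + δ • dir φ)) : ∃ c, OLim p f φ i σ c := by
  by_cases hne : ∃ z ∈ reg p, 0 < σ * sd p i (z, φ)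
  · obtain ⟨w, δ, ρ, hδ, hρ, hB, hae⟩ := hc hne
    obtain ⟨c, hc⟩ := hdir w _ hB
    refine ⟨c, fun η hη => ?_⟩
    obtain ⟨ρ₁, hρ₁, h1⟩ := hc η hη
    refine ⟨min ρ ρ₁, lt_min hρ hρ₁, ?_⟩
    filter_upwards [(qmp p w (δ • dir φ)).ae h1, hae] with z a1 a2 hz hzn hzs
    have a3 := a2 hz (hzn.trans_le (min_le_left _ _)) hzs
    rw [inv_fun hp hI hz a3]
    obtain ⟨e, c', he, h⟩ := (hR n p hp).2.2.2.2.2.2.2.2.2.2.1 w
    have e1 : (fd p w (z + δ • dir φ, φ)).1 = fp p w (z + δ • dir φ) :=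
      (hR n p hp).2.2.2.2.2.2.2.2.1 w _ _
    have e2 : (fd p w (z + δ • dir φ, φ)).2 = (fd p w (0, φ)).2 := by
      rw [(h _ φ).1, (h 0 φ).1]
    have e3 : fd p w (z + δ • dir φ, φ) = (fp p w (z + δ • dir φ), (fd p w (0, φ)).2) :=
      Prod.ext e1 e2
    rw [e3]
    refine a1 ?_
    rw [(hR n p hp).2.2.2.2.2.2.2.1 w]
    have e4 : z + δ • dir φ - (p i + δ • dir φ) = z - p i := by ring
    rw [e4]
    exact hzn.trans_le (min_le_right _ _)
  · exact ⟨0, fun η _ => ⟨1, one_pos, Eventually.of_forall fun z hz _ hs => absurd ⟨z, hz, hs⟩ hne⟩⟩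

theorem both (hp : IsConvexPolygon p) {f : ℂ × ℝ → ℝ} {φ : ℝ}
    (hdir : ∀ z ∈ reg p, ∃ c, Lim (sli f φ) z c)
    (i : Fin (n + 3)) {c₁ c₂ : ℝ} (h1 : OLim p f φ i 1 c₁) (h2 : OLim p f φ i (-1) c₂)
    (hs₁ : ∃ z ∈ reg p, 0 < sd p i (z, φ)) (hs₂ : ∃ z ∈ reg p, sd p i (z, φ) < 0) : c₁ = c₂ := by
  have hopen := reg_open hp
  by_contra hne
  have hpos : 0 < |c₁ - c₂| := abs_pos.2 (sub_ne_zero.2 hne)
  set η : ℝ := |c₁ - c₂| / 8 with hη
  have hη0 : 0 < η := by positivity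
  obtain ⟨r₁, hr₁, g1⟩ := h1 η hη0
  obtain ⟨r₂, hr₂, g2⟩ := h2 η hη0
  set r : ℝ := min r₁ r₂ with hr
  have hr0 : 0 < r := lt_min hr₁ hr₂
  obtain ⟨z1, hz1, hs1⟩ := hs₁
  obtain ⟨z2, hz2, hs2⟩ := hs₂
  -- points near the vertex
  obtain ⟨l, hl0, hl1, hl2, hl3⟩ : ∃ l : ℝ, 0 < l ∧ l ≤ 1 ∧ l * ‖z1 - p i‖ < r ∧
      l * ‖z2 - p i‖ < r := by
    have e1 : ∀ᶠ l in 𝓝[>] (0 : ℝ), l * ‖z1 - p i‖ < r := by
      have : Tendsto (fun l : ℝ => l * ‖z1 - p i‖) (𝓝[>] 0) (𝓝 (0 * ‖z1 - p i‖)) :=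
        ((continuous_id.mul continuous_const).tendsto 0).mono_left nhdsWithin_le_nhds
      rw [zero_mul] at this
      exact this.eventually_lt_const hr0
    have e2 : ∀ᶠ l in 𝓝[>] (0 : ℝ), l * ‖z2 - p i‖ < r := by
      have : Tendsto (fun l : ℝ => l * ‖z2 - p i‖) (𝓝[>] 0) (𝓝 (0 * ‖z2 - p i‖)) :=
        ((continuous_id.mul continuous_const).tendsto 0).mono_left nhdsWithin_le_nhds
      rw [zero_mul] at this
      exact this.eventually_lt_const hr0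
    have e3 : ∀ᶠ l in 𝓝[>] (0 : ℝ), l ≤ 1 := by
      filter_upwards [Ioo_mem_nhdsGT (one_pos (α := ℝ))] with l hl using hl.2.le
    obtain ⟨l, ⟨⟨a, b⟩, c⟩, d⟩ := (((e1.and e2).and e3).and self_mem_nhdsWithin).exists
    exact ⟨l, d, c, a, b⟩
  set y1 : ℂ := p i + l • (z1 - p i) with hy1
  set y2 : ℂ := p i + l • (z2 - p i) with hy2
  have hy1r : y1 ∈ reg p := scale_in hp i hz1 hl0 hl1
  have hy2r : y2 ∈ reg p := scale_in hp i hz2 hl0 hl1
  have hs1' : 0 < sd p i (y1, φ) := by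
    rw [hy1, sd_line, sd_vertex, mul_zero, zero_add]
    exact mul_pos hl0 hs1
  have hs2' : sd p i (y2, φ) < 0 := by
    rw [hy2, sd_line, sd_vertex, mul_zero, zero_add]
    exact mul_neg_of_pos_of_neg hl0 hs2
  have hn1 : y1 ∈ Metric.ball (p i) r := by
    rw [Metric.mem_ball, dist_eq_norm, hy1, add_sub_cancel_left, norm_smul, Real.norm_eq_abs,
      abs_of_pos hl0]
    exact hl2
  have hn2 : y2 ∈ Metric.ball (p i) r := by
    rw [Metric.mem_ball, dist_eq_norm, hy2, add_sub_cancel_left, norm_smul, Real.norm_eq_abs,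
      abs_of_pos hl0]
    exact hl3
  -- the point on the line through the vertex
  set s : ℝ := sd p i (y1, φ) / (sd p i (y1, φ) - sd p i (y2, φ)) with hs
  have hden : 0 < sd p i (y1, φ) - sd p i (y2, φ) := by linarith
  have hs0 : 0 ≤ s := (div_pos hs1' hden).le
  have hs11 : s ≤ 1 := by rw [hs, div_le_one hden]; linarith
  set y : ℂ := y1 + s • (y2 - y1) with hy
  have hyseg : y ∈ segment ℝ y1 y2 := by
    rw [segment_eq_image']
    exact ⟨s, ⟨hs0, hs11⟩, rfl⟩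
  have hyr : y ∈ reg p := (hB n p hp).2.2.1.segment_subset hy1r hy2r hyseg
  have hyb : y ∈ Metric.ball (p i) r :=
    (convex_ball (p i) r).segment_subset hn1 hn2 hyseg
  have hy0 : sd p i (y, φ) = 0 := by
    rw [hy, sd_line, hs]
    field_simp
    ring
  obtain ⟨c, hc⟩ := hdir y hyr
  obtain ⟨ρ, hρ, hae⟩ := hc η hη0
  have hcz : Continuous fun z' : ℂ => sd p i (z', φ) :=
    (sd_cont p i).comp (continuous_id.prodMk continuous_const)
  -- on either side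
  have side : ∀ σ : ℝ, σ ≠ 0 → ∃ z' : ℂ, 0 < sd p i (z', φ) * σ ∧ |f (z', φ) - c| ≤ η ∧
      ((0 < sd p i (z', φ) → |f (z', φ) - c₁| ≤ η) ∧
        (sd p i (z', φ) < 0 → |f (z', φ) - c₂| ≤ η)) := by
    intro σ hσ
    have t1 : Tendsto (fun τ : ℝ => y + (τ * σ) • (I * dir φ)) (𝓝[>] 0) (𝓝 y) := by
      have : Continuous fun τ : ℝ => y + (τ * σ) • (I * dir φ) := by fun_prop
      have h3 := this.tendsto 0
      rw [zero_mul, zero_smul, add_zero] at h3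
      exact h3.mono_left nhdsWithin_le_nhds
    have t2 : ∀ᶠ τ in 𝓝[>] (0 : ℝ), y + (τ * σ) • (I * dir φ) ∈
        Metric.ball y ρ ∩ (reg p ∩ Metric.ball (p i) r) :=
      t1 (inter_mem (Metric.ball_mem_nhds y hρ) (inter_mem (hopen.mem_nhds hyr)
        (Metric.isOpen_ball.mem_nhds hyb)))
    obtain ⟨τ, hτ1, hτ2⟩ := (t2.and self_mem_nhdsWithin).exists
    have hτ : 0 < τ := hτ2
    set v : ℂ := y + (τ * σ) • (I * dir φ) with hv
    have hvs : 0 < sd p i (v, φ) * σ := by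
      rw [hv, sd_normal, hy0, zero_add, mul_assoc]
      exact mul_pos hτ (mul_self_pos.2 hσ)
    have n1 : ∀ᶠ z' in 𝓝 v, 0 < sd p i (z', φ) * σ :=
      ((hcz.mul continuous_const).tendsto v).eventually_const_lt hvs
    have n2 : ∀ᶠ z' in 𝓝 v, z' ∈ Metric.ball y ρ ∩ (reg p ∩ Metric.ball (p i) r) :=
      (Metric.isOpen_ball.inter (hopen.inter Metric.isOpen_ball)).mem_nhds hτ1
    obtain ⟨z', ⟨⟨a1, a2⟩, a2'⟩, a3, a4, a5, a6⟩ :=
      (Measure.dense_of_ae ((hae.and g1).and g2)).inter_nhds_nonempty (n1.and n2)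
    rw [Metric.mem_ball, dist_eq_norm] at a4 a6
    refine ⟨z', a3, a1 a4, fun b => ?_, fun b => ?_⟩
    · exact a2 a5 (a6.trans_le (min_le_left _ _)) (by linarith)
    · exact a2' a5 (a6.trans_le (min_le_right _ _)) (by linarith)
  obtain ⟨w1, b1, b2, b3, -⟩ := side 1 one_ne_zero
  obtain ⟨w2, k1, k2, -, k3⟩ := side (-1) (by norm_num)
  have d1 := b3 (by linarith)
  have d2 := k3 (by linarith)
  have e1 := abs_le.1 b2
  have e2 := abs_le.1 k2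
  have e3 := abs_le.1 d1
  have e4 := abs_le.1 d2
  have e5 : |c₁ - c₂| ≤ 4 * η := by
    rw [abs_le]
    constructor <;> linarith
  rw [hη] at e5
  linarith

theorem t_VL (hCOR : S_COR) : S_VL := by
  intro n p hp f hI hL
  have h1 : ∀ᵐ φ : ℝ, ∀ w : List (Fin (n + 3)), ∀ z ∈ reg p,
      ∃ c, Lim (sli f (fd p w (0, φ)).2) z c := by
    rw [ae_all_iff]
    intro w
    exact (qmp_dir hp w).ae hL
  have h2 : ∀ᵐ φ : ℝ, ∀ i : Fin (n + 3), ∀ᵐ z : ℂ, sd p i (z, φ) ≠ 0 := by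
    rw [ae_all_iff]
    intro i
    exact ae_swap (sd_ae p i)
  filter_upwards [hCOR n p hp, h1, h2, hL] with φ hcor hdir hsd hL' i
  obtain ⟨c₁, hc₁⟩ := one_side hp hI hdir i 1 (hcor i 1 (Or.inl rfl))
  obtain ⟨c₂, hc₂⟩ := one_side hp hI hdir i (-1) (hcor i (-1) (Or.inr rfl))
  by_cases hs₁ : ∃ z ∈ reg p, 0 < sd p i (z, φ)
  · by_cases hs₂ : ∃ z ∈ reg p, sd p i (z, φ) < 0
    · have hcc : c₁ = c₂ := both hp hL' i hc₁ hc₂ hs₁ hs₂
      refine ⟨c₁, fun η hη => ?_⟩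
      obtain ⟨ρ₁, hρ₁, g1⟩ := hc₁ η hη
      obtain ⟨ρ₂, hρ₂, g2⟩ := hc₂ η hη
      refine ⟨min ρ₁ ρ₂, lt_min hρ₁ hρ₂, ?_⟩
      filter_upwards [g1, g2, hsd i] with z a1 a2 a3 hz hzn
      rcases lt_or_gt_of_ne a3 with h | h
      · rw [hcc]
        exact a2 hz (hzn.trans_le (min_le_right _ _)) (by linarith)
      · exact a1 hz (hzn.trans_le (min_le_left _ _)) (by linarith)
    · refine ⟨c₁, fun η hη => ?_⟩
      obtain ⟨ρ₁, hρ₁, g1⟩ := hc₁ η hη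
      refine ⟨ρ₁, hρ₁, ?_⟩
      filter_upwards [g1, hsd i] with z a1 a3 hz hzn
      rcases lt_or_gt_of_ne a3 with h | h
      · exact absurd ⟨z, hz, h⟩ hs₂
      · exact a1 hz hzn (by linarith)
  · refine ⟨c₂, fun η hη => ?_⟩
    obtain ⟨ρ₂, hρ₂, g2⟩ := hc₂ η hη
    refine ⟨ρ₂, hρ₂, ?_⟩
    filter_upwards [g2, hsd i] with z a2 a3 hz hzn
    rcases lt_or_gt_of_ne a3 with h | h
    · exact a2 hz hzn (by linarith)
    · exact absurd ⟨z, hz, h⟩ hs₁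

end Pool.Agent.Q277.BS.VLj

namespace Pool.Agent.Q277.BS

theorem t_VL (hCOR : Pool.Agent.Q75.BS.S_COR) : Pool.Agent.Q75.BS.S_VL := VLj.t_VL hCOR

end Pool.Agent.Q277.BS
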